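import Pool.Agent.Y722.ST.Nagao

/-!
# The Tauberian form of Nagao's conjecture for almost all members of families of fibrations

`F_c = F₀ + ∑ c i h i` runs through a family of polynomials in `x = X 0` and the coordinates `t` of the
base `𝔸^m`.  If `F₀` is monic of odd degree in `x` and the `h i` are of smaller degree in `x`, all fibres
`y² = F_c(x, t)` are irreducible curves with one point at infinity, the trace of Frobenius on `H¹` of the
fibre over a point `t` over `𝔽_p` is `-∑_x χ(F_c(x, t))`, and `fav F₀ h p c` is the average `𝔄_p` of these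
traces over `𝔸^m(𝔽_p)`.
-/

set_option autoImplicit false

namespace Pool.Agent.Results.MP_1a0ddd_nt.HyperellipticSystems

open Pool.Agent.Y722.HS Pool.Agent.Y722.ST

/-- Part 1: if two points over `𝔽_p` outside the base locus are separated by the `h i`, and if the sum of
the quadratic character of `F₀` over the base locus is `r p^m` up to `O(p^{m - 1/2})` (for example if the
base locus consists of `r` sections, on which `F₀` is a square), then the sums of
`(𝔄_p(c) + r) log p` over the primes `p < T` outside `R` are `O(√T log³ T)` in mean square over the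
members of height at most `H`.  Here `T ≤ (H/8)^{1/4}` and the set `R` of bad primes, divisors of the value
of a fixed polynomial, may be chosen for every member, so that the bound holds for all `T` at the same
time.  Part 2: the families `y² = (x - 1) ⋯ (x - r) (x^{D - r} + G_c(x, t)) + t₁²`, where `G_c` runs through
all integral polynomials of degree less than `D - r` in `x` and at most `e` in the `t_j`, with the sections
`(j, t₁)`, `1 ≤ j ≤ r`. -/
theorem result :
    (∀ (m : ℕ), 1 ≤ m → ∀ (ι : Type) [Fintype ι] [DecidableEq ι]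
      (F₀ : MvPolynomial (Fin (m + 1)) ℤ) (h : ι → MvPolynomial (Fin (m + 1)) ℤ) (p₀ : ℕ)
      (r C₀ : ℝ), (∀ p : ℕ, p.Prime → p₀ ≤ p → Sep2 h p) →
      (∀ p : ℕ, p.Prime → p₀ ≤ p → |bsum F₀ h p - r * (p : ℝ) ^ m| ≤
        C₀ * ((p : ℝ) ^ m / Real.sqrt p)) → ∀ P : MvPolynomial ι ℤ, P ≠ 0 →
      ∃ C : ℝ, ∀ (H : ℕ) (T : (ι → ℤ) → ℕ) (R : (ι → ℤ) → Set ℕ),
        (∀ c, 2 ≤ T c ∧ 8 * T c ^ 4 ≤ H) →
        (∀ c, ∀ p ∈ R c, p₀ ≤ p → (p : ℤ) ∣ MvPolynomial.eval c P) →
        ∑ c ∈ box ι H, nag F₀ h r (R c) c (T c) ^ 2 / (T c * Real.log (T c) ^ 6) ≤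
          C * (box ι H).card) ∧
    ∀ D r e m : ℕ, r + 2 ≤ D → 1 ≤ e → ∀ P : MvPolynomial (Ex D r e m) ℤ, P ≠ 0 →
      ∃ C : ℝ, ∀ (H : ℕ) (T : (Ex D r e m → ℤ) → ℕ) (R : (Ex D r e m → ℤ) → Set ℕ),
        (∀ c, 2 ≤ T c ∧ 8 * T c ^ 4 ≤ H) →
        (∀ c, ∀ p ∈ R c, r < p → (p : ℤ) ∣ MvPolynomial.eval c P) →
        ∑ c ∈ box (Ex D r e m) H, nag (Fr D r m) (hr D r e m) r (R c) c (T c) ^ 2 /
          (T c * Real.log (T c) ^ 6) ≤ C * (box (Ex D r e m) H).card :=
  ⟨fun _ hm _ _ _ F₀ h p₀ r C₀ hs hb P hP => nagao hm F₀ h p₀ r C₀ hs hb P hP,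
    fun D r e m hD he P hP => nagaoExplicit D r e m hD he P hP⟩

end Pool.Agent.Results.MP_1a0ddd_nt.HyperellipticSystems
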