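import Pool.Agent.Y707.TP.Lim

/-!
# The Tauberian generalized Nagao conjecture for linear pencils of hyperelliptic curves

`V` is the variety of the points `(x, y)` with `y_i ^ 2 = G_i(x)`, over the number field `K`, for
polynomials `G_i` in `k` variables such that no product of some of them is a constant times a square:
all function fields of characteristic zero that are generated over a purely transcendental extension of
a number field by square roots are of this form.  `X` is the curve `Y ^ 2 = a(x, X) + w ∏ (X - α_j(x))`
of genus `g` over the function field `E(V × 𝔸¹) = E(V)(w)`, for any number field `E ⊇ K`, and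
`b_v = -𝔄_v` is minus the fibre average at the prime `v` of `E`, over the points `(x, y, w)` of the
base with `y_i ≠ 0` and smooth fibre (the other points of a projective model of the base change `𝔄_v` by
`O(q_v^{-1/2})`, which does not affect the limit).

`X` has a rational point at infinity, and `P_X = Pic⁰ X` is the class group of its affine coordinate
ring.  It has no torsion over any `E`, so the `K(𝒴)/K`-trace of `P_X` is zero, and `𝔄* = 𝔄`.
-/

set_option autoImplicit false
set_option maxHeartbeats 400000

namespace Pool.Agent.Results.MP_1a0ddd_nt.TauberianPencils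

open Polynomial NumberField IsDedekindDomain Filter Topology Pool.Agent.Y707.PC
open Pool.Agent.W353.FB (ValueAt average)
open Pool.Agent.Y707.PH (averageValue)

theorem result (K : Type) [Field K] [NumberField K] (k l r g : ℕ)
    (G : Fin l → MvPolynomial (Fin k) (𝓞 K)) (a : (MvPolynomial (Fin k) (𝓞 K))[X])
    (α : Fin r → MvPolynomial (Fin k) (𝓞 K)) (h : IsPencil g G a α)
    (E : IntermediateField K (AlgebraicClosure K)) [NumberField E] :
    -- the analytic side: the values `b_v = -𝔄_v` at the primes of `E`, and the limit of their averages
    (∃ b : HeightOneSpectrum (𝓞 E) → ℝ,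
      (∀ v, ValueAt (averageValue (pencil g G a α)) v (b v)) ∧
        ∀ R : Finset (HeightOneSpectrum (𝓞 E)),
          Tendsto (average R b) atTop (𝓝 (count G a α E : ℝ))) ∧
    -- the algebraic side: `Pic⁰ X` over `M(w)`, for the function field `M` of `V` over `E`
    (∀ (M : Type) [Field M] [Algebra E M] (ξ : Fin k → M) (η : Fin l → M),
      IsFunctionField G E ξ η → IsSmoothCurve g (generic a α E ξ) ∧
        PicFreeOfRank (generic a α E ξ) (count G a α E)) ∧
    -- the function field exists
    (∃ (M : Type) (_ : Field M) (_ : Algebra E M) (ξ : Fin k → M) (η : Fin l → M),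
      IsFunctionField G E ξ η) := by
  refine ⟨⟨_, fun v => Pool.Agent.Y707.PR.valueAt_TTF h.monic h.degree h.number v, fun R =>
    Pool.Agent.Y707.TP.pencil_limit h.independent h.monic h.degree h.number h.nonzero h.distinct E
      (fun v => Pool.Agent.Y707.PR.valueAt_TTF h.monic h.degree h.number v) R⟩,
    fun M _ _ ξ η hM => ?_, exists_field G E⟩
  obtain ⟨h1, h2, h3, h4⟩ := algebraic h.independent h.monic h.degree h.number h.nonzero h.distinct E
    hM.1 hM.2.1 hM.2.2
  exact ⟨⟨h1, h2, h3⟩, h4⟩

end Pool.Agent.Results.MP_1a0ddd_nt.TauberianPencils
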